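import Pool.Agent.Helper21.MX.Defs
import Pool.Agent.Helper8.PQ.Proc

set_option autoImplicit false

/-!
# The process of an algorithm
-/

namespace Pool.Agent.Helper21.MX

open Finset
open Pool.Agent.Helper22.ETModel Pool.Agent.Helper22.TSModel Pool.Agent.Helper22.EP
open Pool.Agent.Helper23.SP (pre sg Om g put supp Free)
open Pool.Agent.Helper8.ZT (pev covp LineOK)
open Pool.Agent.Helper21.DS (cove)
open Pool.Agent.Helper8.PQ
open Pool.Agent.Helper21.MG (SparseForm)

variable {m n k b U M N d a D W R K : ℕ} [NeZero b]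

/-! ## The number of elements looked at -/

private theorem coeff_qp_X (h : 3 * m ≤ n) (q : Fin n × Fin n) (e : E m)
    (hq : (qp h (MvPolynomial.X q)).coeff (Finsupp.single e 1) ≠ 0) :
    enc h e = (q.1, q.2) ∨ enc h e = (q.2, q.1) := by
  classical
  by_contra hcon
  rw [not_or] at hcon
  apply hq
  unfold qp redP
  rw [MvPolynomial.aeval_X]
  unfold gq
  rw [map_sum, MvPolynomial.coeff_sum]
  refine Finset.sum_eq_zero fun e' _ => ?_
  rw [map_mul, MvPolynomial.aeval_X]
  have h1 : MvPolynomial.aeval (R := ℝ)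
      (fun e : E m => MvPolynomial.C (sg e : ℝ) * MvPolynomial.X e)
      (MvPolynomial.C ((if enc h e' = (q.1, q.2) then 1 else 0) +
        (if enc h e' = (q.2, q.1) then 1 else 0))) =
      MvPolynomial.C ((if enc h e' = (q.1, q.2) then (1 : ℝ) else 0) +
        (if enc h e' = (q.2, q.1) then 1 else 0)) := by
    rw [MvPolynomial.aeval_C]
    rfl
  rw [h1, MvPolynomial.coeff_C_mul, MvPolynomial.coeff_C_mul]
  by_cases he : e' = e
  · subst he
    rw [if_neg hcon.1, if_neg hcon.2]
    simp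
  · rw [MvPolynomial.coeff_X, if_neg (fun hh => he (Finsupp.single_left_injective one_ne_zero hh))]
    simp

private theorem sup_card_le (h : 3 * m ≤ n) {s κ B : ℕ} {f : MvPolynomial (Fin n × Fin n) ℝ}
    (hf : SparseForm s κ B f) : (sup h f).card ≤ s := by
  classical
  obtain ⟨z, γ, v, -, -, rfl⟩ := hf
  have key : ∀ e ∈ sup h (MvPolynomial.C (z : ℝ) +
      ∑ l, MvPolynomial.C (γ l : ℝ) * MvPolynomial.X (v l)),
      ∃ l : Fin s, enc h e = ((v l).1, (v l).2) ∨ enc h e = ((v l).2, (v l).1) := by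
    intro e he
    unfold sup at he
    rw [mem_filter] at he
    by_contra hcon
    push Not at hcon
    apply he.2
    have h0 : ∀ l, (qp h (MvPolynomial.X (v l))).coeff (Finsupp.single e 1) = 0 := by
      intro l
      by_contra h1
      rcases coeff_qp_X h (v l) e h1 with h2 | h2
      · exact (hcon l).1 h2
      · exact (hcon l).2 h2
    have h1 : qp h (MvPolynomial.C (z : ℝ) +
        ∑ l, MvPolynomial.C (γ l : ℝ) * MvPolynomial.X (v l)) =
        MvPolynomial.C (z : ℝ) + ∑ l, MvPolynomial.C (γ l : ℝ) * qp h (MvPolynomial.X (v l)) := by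
      unfold qp redP
      rw [map_add, map_add, map_sum, map_sum]
      congr 1
      · rw [MvPolynomial.aeval_C]
        show MvPolynomial.aeval _ (MvPolynomial.C (z : ℝ)) = _
        rw [MvPolynomial.aeval_C]
        rfl
      · refine Finset.sum_congr rfl fun l _ => ?_
        rw [map_mul, map_mul, MvPolynomial.aeval_C]
        congr 1
        show MvPolynomial.aeval _ (MvPolynomial.C (γ l : ℝ)) = _
        rw [MvPolynomial.aeval_C]
        rfl
    rw [h1, MvPolynomial.coeff_add, MvPolynomial.coeff_sum, MvPolynomial.coeff_C, if_neg, zero_add]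
    · refine Finset.sum_eq_zero fun l _ => ?_
      rw [MvPolynomial.coeff_C_mul, h0, mul_zero]
    · intro hh
      have := congrArg (fun x => x e) hh
      simp at this
  set T : Finset (E m) := sup h (MvPolynomial.C (z : ℝ) +
    ∑ l, MvPolynomial.C (γ l : ℝ) * MvPolynomial.X (v l)) with hT
  choose l hl using fun e : {e // e ∈ T} => key e.1 e.2
  have hinj : Function.Injective l := by
    intro e e' hee
    apply Subtype.ext
    have h1 := hl e
    have h2 := hl e'
    rw [← hee] at h2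
    rcases h1 with h1 | h1 <;> rcases h2 with h2 | h2
    · exact enc_inj h (h1.trans h2.symm)
    · exfalso
      apply enc_swap h e.1 e'.1
      rw [h1, h2]
      rfl
    · exfalso
      apply enc_swap h e.1 e'.1
      rw [h1, h2]
      rfl
    · exact enc_inj h (h1.trans h2.symm)
  have h3 := Fintype.card_le_of_injective l hinj
  rwa [Fintype.card_coe, Fintype.card_fin] at h3

private theorem sset_card_le (h : 3 * m ≤ n) {s κ B s0 S1 : ℕ} (h1 : s ≤ S1) (h2 : s0 ≤ S1)
    (Q : ℕ) (Λ : ℝ) (δ : E m → Bool) (f : MvPolynomial (Fin n × Fin n) ℝ) :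
    (sset h s κ B s0 Q Λ δ f).card ≤ S1 := by
  classical
  unfold sset
  split_ifs with h3 h4 h5
  · simp
  · exact (sup_card_le h h3).trans h1
  · exact h5.trans h2
  · simp

/-! ## The ideal point -/

private theorem hm_full (S : Finset (E m)) {ω ω' : Om (E m) k b U} (h2 : ω.2 = ω'.2)
    (h : ∀ e ∈ S, ω.1 e = ω'.1 e) (i : Fin k) (e : E m) (he : e ∈ S) :
    g i ω e = g i ω' e := by
  unfold g
  rw [h2, h e he]

private theorem iptM_congr (L Y Q : ℕ) (S : Finset (E m)) (lam : BgM m k U M N)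
    {ω ω' : Om (E m) k b U} (h : ∀ e ∈ S, rpM L Y S ω lam e = rpM L Y S ω' lam e) :
    iptM L Y Q S ω lam = iptM L Y Q S ω' lam := by
  funext e
  unfold iptM
  by_cases h1 : lam.1 e = true
  · rw [if_pos h1, if_pos h1]
    unfold vrM vr vl
    have h1' : (cmp ω.2 lam).1 e = true := h1
    have h1'' : (cmp ω'.2 lam).1 e = true := h1
    rw [if_pos h1', if_pos h1'']
    rfl
  · rw [if_neg h1, if_neg h1]
    by_cases h2 : e ∈ S
    · rw [if_pos h2, if_pos h2, h e h2]
    · rw [if_neg h2, if_neg h2]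

private theorem iptM_full (L Y Q : ℕ) (S : Finset (E m)) (lam : BgM m k U M N)
    {ω ω' : Om (E m) k b U} (h2 : ω.2 = ω'.2) (h : ∀ e ∈ S, ω.1 e = ω'.1 e) :
    iptM L Y Q S ω lam = iptM L Y Q S ω' lam := by
  have hh : ∀ r, hm S ω r = hm S ω' r := fun r =>
    hm_congr S fun i _ e he => hm_full S h2 h i e (hm_subset S ω _ he)
  refine iptM_congr L Y Q S lam fun e he => ?_
  unfold rpM
  congr 1
  · refine Finset.sum_congr rfl fun i _ => ?_
    rw [hh i.val, hm_full S h2 h i e he]
  · rw [hh k]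

private theorem iptM_loc (L Y Q : ℕ) (S : Finset (E m)) (lam : BgM m k U M N) (r : Fin k)
    (ω : Om (E m) k b U) {ξ ξ' : (E m → Fin b) × ((Fin k → Fin b) → Fin U)}
    (h : ∀ e ∈ hm S ω r.val, ξ.1 e = ξ'.1 e ∧
      ξ.2 (Function.update (pre r.val (ω.1 e)) r (ξ.1 e)) =
        ξ'.2 (Function.update (pre r.val (ω.1 e)) r (ξ'.1 e))) :
    iptM L Y Q S (put r ω ξ) lam = iptM L Y Q S (put r ω ξ') lam := by
  refine iptM_congr L Y Q S lam fun e _ => ?_
  unfold rpM
  congr 1
  · refine Finset.sum_congr rfl fun i _ => ?_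
    by_cases he : e ∈ hm S (put r ω ξ) i.val
    · have he' : e ∈ hm S (put r ω ξ') i.val := by
        rw [← hm_put_congr i.val S ω h]
        exact he
      rw [if_pos he, if_pos he', g_put_congr S ω h i e he]
    · have he' : e ∉ hm S (put r ω ξ') i.val := by
        rw [← hm_put_congr i.val S ω h]
        exact he
      rw [if_neg he, if_neg he']
  · rw [hm_put_congr k S ω h]

/-! ## The process -/

private theorem procM_card (h : 3 * m ≤ n) {s κ B s0 S1 : ℕ} (h1 : s ≤ S1) (h2 : s0 ≤ S1)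
    (ha : 2 * a ≤ S1) (Q : ℕ) (Λ : ℝ) (δ : E m → Bool) (q : PolQ n d a) :
    (SQM h s κ B s0 Q Λ δ q).card ≤ S1 := by
  classical
  cases q with
  | sign f hf => exact sset_card_le h h1 h2 Q Λ δ f
  | zero f hf =>
    show (cove h f).card ≤ S1
    unfold Pool.Agent.Helper21.DS.cove
    have h3 := Pool.Agent.Helper50.ZT.card_covp_le h f hf
    refine (card_union_le _ _).trans ?_
    have h4 : ((covp h f).image Prod.fst).card ≤ (covp h f).card := card_image_le
    have h5 : ((covp h f).image Prod.snd).card ≤ (covp h f).card := card_image_le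
    omega

private theorem procM_full (h : 3 * m ≤ n) (s κ B s0 L Y Q : ℕ) (Λ : ℝ) (lam : BgM m k U M N)
    {ω ω' : Om (E m) k b U} (q : PolQ n d a) (h2 : ω.2 = ω'.2)
    (hS : ∀ e ∈ SQM h s κ B s0 Q Λ lam.1 q, ω.1 e = ω'.1 e) :
    ianM h s κ B s0 L Y Q Λ ω lam q = ianM h s κ B s0 L Y Q Λ ω' lam q := by
  classical
  cases q with
  | sign f hf =>
    exact congrArg (fun x => SignType.sign (MvPolynomial.eval x (qp h f)))
      (iptM_full L Y Q _ lam h2 hS)
  | zero f hf => rfl

private theorem procM_loc (h : 3 * m ≤ n) (s κ B s0 L Y Q : ℕ) (Λ : ℝ) (lam : BgM m k U M N)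
    (r : Fin k) (ω : Om (E m) k b U) {ξ ξ' : (E m → Fin b) × ((Fin k → Fin b) → Fin U)}
    (q : PolQ n d a)
    (hS : ∀ e ∈ hm (SQM h s κ B s0 Q Λ lam.1 q) ω r.val, ξ.1 e = ξ'.1 e ∧
      ξ.2 (Function.update (pre r.val (ω.1 e)) r (ξ.1 e)) =
        ξ'.2 (Function.update (pre r.val (ω.1 e)) r (ξ'.1 e))) :
    ianM h s κ B s0 L Y Q Λ (put r ω ξ) lam q = ianM h s κ B s0 L Y Q Λ (put r ω ξ') lam q := by
  classical
  cases q with
  | sign f hf =>
    exact congrArg (fun x => SignType.sign (MvPolynomial.eval x (qp h f)))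
      (iptM_loc L Y Q _ lam r ω hS)
  | zero f hf => rfl

/-- The process looks at few elements and, on every level, only at the hash values of the elements
revealed there. -/
theorem procM_ok (A : Alg n D W R (PolQ n d a) SignType) (h : 3 * m ≤ n) {s κ B s0 S1 : ℕ}
    (h1 : s ≤ S1) (h2 : s0 ≤ S1) (h3 : 2 * a ≤ S1) (L Y Q : ℕ) (Λ : ℝ) (lam : BgM m k U M N)
    (ρ : Fin R → Bool) :
    (procM (k := k) (b := b) (U := U) A h s κ B s0 L Y Q Λ lam ρ).OK S1 := by
  constructor
  · intro t v
    exact procM_card h h1 h2 h3 Q Λ lam.1 (A.ask (flagOf h) ρ t v)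
  · intro t v ω ω' h4 hS
    exact congrArg (A.next (flagOf h) ρ t v)
      (procM_full h s κ B s0 L Y Q Λ lam (A.ask (flagOf h) ρ t v) h4 hS)
  · intro t v r ω ξ ξ' hS
    exact congrArg (A.next (flagOf h) ρ t v)
      (procM_loc h s κ B s0 L Y Q Λ lam r ω (A.ask (flagOf h) ρ t v) hS)

end Pool.Agent.Helper21.MX
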