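import Pool.Agent.Helper21.MX.Defs
import Pool.Agent.Helper8.PQ.Run

set_option autoImplicit false

/-!
# Real runs and ideal runs
-/

namespace Pool.Agent.Helper21.MX

open Finset
open Pool.Agent.Helper22.ETModel Pool.Agent.Helper22.TSModel Pool.Agent.Helper22.EP
open Pool.Agent.Helper23.SP (pre sg Om g put supp Free)
open Pool.Agent.Helper8.ZT (pev covp LineOK)
open Pool.Agent.Helper21.DS (cove)
open Pool.Agent.Helper8.PQ
open Pool.Agent.Helper21.MG (SparseForm)

variable {m n k b U M N d a D W R K K' : ℕ} [NeZero b]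

/-- One step, in general form: the real answer and the answer from the sign vector agree with the
ideal answer. -/
lemma runM_step {s κ B s0 L Y Q : ℕ} {Λ : ℝ} (h : 3 * m ≤ n)
    (A : Alg n D W R (PolQ n d a) SignType) (ρ : Fin R → Bool)
    (F' : Fin K' → MvPolynomial (Fin n × Fin n) ℝ)
    (hF' : ∀ t < D, ∀ v f hf, A.ask (flagOf h) ρ t v = .sign f hf → ∃ i, F' i = f)
    (ω : Om (E m) k b U) (lam : BgM m k U M N) (v : E m → ℤ)
    (hsign : ∀ t < D, ∀ f hf, A.ask (flagOf h) ρ t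
      ((procM A h s κ B s0 L Y Q Λ lam ρ).st ω 0 (A.init (flagOf h) ρ) t) = .sign f hf →
      SignType.sign (pev h f (fun e => (v e : ℝ))) =
        ianM (a := a) h s κ B s0 L Y Q Λ ω lam (.sign f hf))
    (hzero : ∀ t < D, ∀ f hf, A.ask (flagOf h) ρ t
      ((procM A h s κ B s0 L Y Q Λ lam ρ).st ω 0 (A.init (flagOf h) ρ) t) = .zero f hf →
      fstA A h ρ F' (sgv h F' (fun e => (v e : ℝ))) t =
        (procM A h s κ B s0 L Y Q Λ lam ρ).st ω 0 (A.init (flagOf h) ρ) t →
      (pev h f (fun e => (v e : ℝ)) = 0 ↔ ∀ y, pev h f y = 0)) (t : ℕ) (ht : t ≤ D) :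
    A.state (polFam n d a) (ins h v) ρ t =
      (procM A h s κ B s0 L Y Q Λ lam ρ).st ω 0 (A.init (flagOf h) ρ) t ∧
    fstA A h ρ F' (sgv h F' (fun e => (v e : ℝ))) t =
      (procM A h s κ B s0 L Y Q Λ lam ρ).st ω 0 (A.init (flagOf h) ρ) t := by
  classical
  induction t with
  | zero => exact ⟨rfl, rfl⟩
  | succ t ih =>
    obtain ⟨ih1, ih2⟩ := ih (by omega)
    have htD : t < D := by omega
    have hstep : (polFam n d a).ans (A.ask (flagOf h) ρ t
          ((procM A h s κ B s0 L Y Q Λ lam ρ).st ω 0 (A.init (flagOf h) ρ) t)) (ins h v) =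
        ianM h s κ B s0 L Y Q Λ ω lam (A.ask (flagOf h) ρ t
          ((procM A h s κ B s0 L Y Q Λ lam ρ).st ω 0 (A.init (flagOf h) ρ) t)) ∧
        ansA h F' (sgv h F' (fun e => (v e : ℝ))) (A.ask (flagOf h) ρ t
          ((procM A h s κ B s0 L Y Q Λ lam ρ).st ω 0 (A.init (flagOf h) ρ) t)) =
        ianM h s κ B s0 L Y Q Λ ω lam (A.ask (flagOf h) ρ t
          ((procM A h s κ B s0 L Y Q Λ lam ρ).st ω 0 (A.init (flagOf h) ρ) t)) := by
      rcases hq : A.ask (flagOf h) ρ t
        ((procM A h s κ B s0 L Y Q Λ lam ρ).st ω 0 (A.init (flagOf h) ρ) t) with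
        ⟨f, hf⟩ | ⟨f, hf⟩
      · have h2 : (polFam n d a).ans (.sign f hf) (ins h v) =
            ianM (a := a) h s κ B s0 L Y Q Λ ω lam (.sign f hf) := by
          rw [ans_sign]
          exact hsign t htD f hf hq
        refine ⟨h2, ?_⟩
        rw [← ansA_sign (d := d) (a := a) h F' v f hf (hF' t htD _ f hf hq)]
        exact h2
      · refine ⟨?_, rfl⟩
        rw [ans_zero]
        unfold ianM
        simp only
        have h1 := hzero t htD f hf hq ih2
        by_cases h2 : ∀ y, pev h f y = 0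
        · rw [if_pos (h2 _), if_pos h2]
        · rw [if_neg h2, if_neg (fun h3 => h2 (h1.1 h3))]
    rw [st_succ, Nat.zero_add]
    constructor
    · show A.next (flagOf h) ρ t _ ((polFam n d a).ans (A.ask (flagOf h) ρ t
        (A.state (polFam n d a) (ins h v) ρ t)) _) =
        A.next (flagOf h) ρ t _ (ianM h s κ B s0 L Y Q Λ ω lam (A.ask (flagOf h) ρ t _))
      rw [ih1, hstep.1]
    · show A.next (flagOf h) ρ t _ (ansA h F' _ (A.ask (flagOf h) ρ t
        (fstA A h ρ F' (sgv h F' (fun e => (v e : ℝ))) t))) =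
        A.next (flagOf h) ρ t _ (ianM h s κ B s0 L Y Q Λ ω lam (A.ask (flagOf h) ρ t _))
      rw [ih2, hstep.2]

/-- The run on the basic instance. -/
theorem runM_base {s κ B s0 L Y Q : ℕ} {Λ : ℝ} (h : 3 * m ≤ n)
    (A : Alg n D W R (PolQ n d a) SignType) (ρ : Fin R → Bool)
    (F' : Fin K' → MvPolynomial (Fin n × Fin n) ℝ)
    (hF' : ∀ t < D, ∀ v f hf, A.ask (flagOf h) ρ t v = .sign f hf → ∃ i, F' i = f)
    (ω : Om (E m) k b U) (lam : BgM m k U M N) (x y : E m)
    (hgood : ∀ t < D, ∀ v f hf, A.ask (flagOf h) ρ t v = .sign f hf →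
      GoodM L Y Q (qp h f) (sset h s κ B s0 Q Λ lam.1 f) ω lam x y)
    (hN : ¬ badZ A h F' ρ id (vrM L Y Q ω lam)) :
    A.state (polFam n d a) (ins h (vl L Y Q ω.1 (cmp ω.2 lam))) ρ D =
      (procM A h s κ B s0 L Y Q Λ lam ρ).st ω 0 (A.init (flagOf h) ρ) D := by
  classical
  refine (runM_step h A ρ F' hF' ω lam (vl L Y Q ω.1 (cmp ω.2 lam)) ?_ ?_ D le_rfl).1
  · intro t ht f hf hq
    have h3 := (hgood t ht _ f hf hq).1
    unfold ianM
    simp only
    rw [← h3, eval_qp]
    rfl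
  · intro t ht f hf hq hst
    constructor
    · intro h1
      by_contra h2
      push Not at h2
      exact hN ⟨t, ht, f, hf, by
        rw [← hq, ← hst]
        rfl, h2, h1⟩
    · intro h1
      exact h1 _

/-- The run on the planted instance. -/
theorem runM_plant {s κ B s0 L Y Q : ℕ} {Λ : ℝ} (h : 3 * m ≤ n)
    (A : Alg n D W R (PolQ n d a) SignType) (ρ : Fin R → Bool)
    (F' : Fin K' → MvPolynomial (Fin n × Fin n) ℝ)
    (hF' : ∀ t < D, ∀ v f hf, A.ask (flagOf h) ρ t v = .sign f hf → ∃ i, F' i = f)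
    (ω : Om (E m) k b U) (lam : BgM m k U M N) (i j l : Fin m)
    (hgood : ∀ t < D, ∀ v f hf, A.ask (flagOf h) ρ t v = .sign f hf →
      GoodM L Y Q (qp h f) (sset h s κ B s0 Q Λ lam.1 f) ω lam (0, i, j) (1, j, l))
    (h0 : lam.1 (0, i, j) = false)
    (h1 : lam.1 (1, j, l) = false) (hd : ω.1 (1, j, l) = ω.1 (0, i, j))
    (hN : ¬ badZ A h F' ρ (plt (0, i, j) (1, j, l)) (vrM L Y Q ω lam))
    (hrev : ∀ t < D, ((0, i, j) : E m) ∉ hm (SQM h s κ B s0 Q Λ lam.1 (A.ask (flagOf h) ρ t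
      ((procM A h s κ B s0 L Y Q Λ lam ρ).st ω 0 (A.init (flagOf h) ρ) t))) ω k) :
    A.state (polFam n d a) (ins h (plv L Y Q ω.1 (cmp ω.2 lam) (0, i, j) (1, j, l))) ρ D =
      (procM A h s κ B s0 L Y Q Λ lam ρ).st ω 0 (A.init (flagOf h) ρ) D := by
  classical
  have hne : ((0, i, j) : E m) ≠ (1, j, l) := by
    intro h8
    have h9 : (0 : Fin 3) = 1 := congrArg Prod.fst h8
    exact absurd h9 (by decide)
  have hpl : (fun e => ((plv L Y Q ω.1 (cmp ω.2 lam) (0, i, j) (1, j, l) e : ℤ) : ℝ)) =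
      plt (0, i, j) (1, j, l) (vrM L Y Q ω lam) := by
    funext e
    unfold plv plt vrM vr
    by_cases he : e = (0, i, j)
    · rw [he, Function.update_self, Function.update_self]
    · rw [Function.update_of_ne he, Function.update_of_ne he]
  refine (runM_step h A ρ F' hF' ω lam
    (plv L Y Q ω.1 (cmp ω.2 lam) (0, i, j) (1, j, l)) ?_ ?_ D le_rfl).1
  · intro t ht f hf hq
    have hr := hrev t ht
    rw [hq] at hr
    have h3 := (hgood t ht _ f hf hq).2 h0 h1 hne hd hr
    unfold ianM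
    simp only
    rw [← h3, eval_qp, hpl]
    rfl
  · intro t ht f hf hq hst
    have hr := hrev t ht
    rw [hq] at hr
    rw [hpl] at hst ⊢
    constructor
    · intro h2
      by_contra h3
      apply hN
      refine ⟨t, ht, f, hf, by rw [hst]; exact hq, ?_, h2⟩
      by_contra hcon
      push Not at hcon
      apply hr
      have h5 : (((0, i, j) : E m), ((1, j, l) : E m)) ∈ covp h f := by
        unfold covp
        rw [if_neg h3, mem_filter]
        refine ⟨mem_univ _, rfl, rfl, fun y hy => ?_⟩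
        have h6 := hcon y
        unfold plt at h6
        have h7 : y (1, j, l) = y (0, i, j) := hy.symm
        rw [h7, Function.update_eq_self] at h6
        exact h6
      have h6 : (0, i, j) ∈ cove h f :=
        Finset.mem_union_left _ (Finset.mem_image_of_mem Prod.fst h5)
      have h7 : (1, j, l) ∈ cove h f :=
        Finset.mem_union_right _ (Finset.mem_image_of_mem Prod.snd h5)
      exact (mem_hm_of_twin h6 h7 hne.symm hd k).1
    · intro h2
      exact h2 _

/-- If nothing goes wrong and the outputs on the basic and the planted instance differ, then the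
element `(0, i, j)` is revealed on level `k` by the ideal run; the sparse queries are good by
hypothesis. -/
theorem output_plantM_of {s κ B s0 L Y Q : ℕ} {Λ : ℝ} (h : 3 * m ≤ n)
    (A : Alg n D W R (PolQ n d a) SignType) (ρ : Fin R → Bool)
    (F : Fin K → MvPolynomial (Fin n × Fin n) ℝ) (F' : Fin K' → MvPolynomial (Fin n × Fin n) ℝ)
    (hF : ∀ t < D, ∀ v f hf, A.ask (flagOf h) ρ t v = .sign f hf →
      SparseForm s κ B f ∨ ∃ i, F i = f)
    (hF' : ∀ t < D, ∀ v f hf, A.ask (flagOf h) ρ t v = .sign f hf → ∃ i, F' i = f)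
    {i j : Fin m} {ω : Om (E m) k b U} {lam : BgM m k U M N}
    (hz : (ω, lam) ∉ BadM A h F F' s κ s0 L Y Q Λ ρ (i, j))
    (hSp : ∀ f, SparseForm s κ B f → GoodM L Y Q (qp h f) (sset h s κ B s0 Q Λ lam.1 f) ω lam
      (0, i, j) (1, j, mte (i, j) ω lam.1))
    (hT : TM (i, j) ω lam.1)
    (hne : A.output (polFam n d a) (ins h (vl L Y Q ω.1 (cmp ω.2 lam))) ρ ≠
      A.output (polFam n d a) (ins h (plv L Y Q ω.1 (cmp ω.2 lam) (0, i, j)
        (1, j, mte (i, j) ω lam.1))) ρ) :
    (0, i, j) ∈ (procM A h s κ B s0 L Y Q Λ lam ρ).rev ω 0 (A.init (flagOf h) ρ) D k := by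
  classical
  by_contra hcon
  apply hne
  unfold BadM at hz
  rw [mem_filter, not_and] at hz
  have hz' := hz (mem_univ _)
  rw [not_or, not_or, not_or] at hz'
  obtain ⟨hb1, -, hb3, hb4⟩ := hz'
  have hmt : lam.1 (1, j, mte (i, j) ω lam.1) = false ∧
      ω.1 (1, j, mte (i, j) ω lam.1) = ω.1 (0, i, j) := by
    unfold mte
    rw [dif_pos hT]
    exact Classical.choose_spec hT.2
  have hgood : ∀ t < D, ∀ v f hf, A.ask (flagOf h) ρ t v = .sign f hf →
      GoodM L Y Q (qp h f) (sset h s κ B s0 Q Λ lam.1 f) ω lam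
        (0, i, j) (1, j, mte (i, j) ω lam.1) := by
    intro t ht v f hf hq
    by_cases hs : SparseForm s κ B f
    · exact hSp f hs
    · obtain ⟨i', rfl⟩ := (hF t ht v f hf hq).resolve_left hs
      have h4 : ¬ ¬ ((piv (Q : ℝ) Λ (qp h (F i')) lam.1).card ≤ s0 ∧
          GoodM L Y Q (qp h (F i')) (piv (Q : ℝ) Λ (qp h (F i')) lam.1) ω lam
            (0, i, j) (1, j, mte (i, j) ω lam.1)) := fun h5 => hb1 ⟨i', h5⟩
      rw [not_not] at h4
      unfold sset
      rw [if_neg hs, if_pos h4.1]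
      exact h4.2
  have hrev : ∀ t < D, ((0, i, j) : E m) ∉ hm (SQM h s κ B s0 Q Λ lam.1 (A.ask (flagOf h) ρ t
      ((procM A h s κ B s0 L Y Q Λ lam ρ).st ω 0 (A.init (flagOf h) ρ) t))) ω k := by
    intro t ht hmem
    apply hcon
    rw [mem_rev]
    refine ⟨t, ht, ?_⟩
    rw [Nat.zero_add]
    exact hmem
  have e1 := runM_base h A ρ F' hF' ω lam _ _ hgood hb3
  have e2 := runM_plant h A ρ F' hF' ω lam i j _ hgood hT.1 hmt.1 hmt.2 hb4 hrev
  show A.out (flagOf h) ρ _ = A.out (flagOf h) ρ _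
  rw [e1, e2]

end Pool.Agent.Helper21.MX
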