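import Pool.Agent.Helper29.MX.Run
import Pool.Agent.Helper59.MX.Sparse

set_option autoImplicit false

/-!
# Real runs and ideal runs: the final statement
-/

namespace Pool.Agent.Helper21.MX

open Finset
open Pool.Agent.Helper22.ETModel Pool.Agent.Helper22.TSModel Pool.Agent.Helper22.EP
open Pool.Agent.Helper23.SP (pre sg Om g put supp Free)
open Pool.Agent.Helper8.ZT (pev covp LineOK)
open Pool.Agent.Helper21.DS (cove)
open Pool.Agent.Helper8.PQ
open Pool.Agent.Helper21.MG (SparseForm)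

variable {m n k b U M N d a D W R K K' : ℕ} [NeZero b]

/-- If nothing goes wrong and the outputs on the basic and the planted instance differ, then the
element `(0, i, j)` is revealed on level `k` by the ideal run. -/
theorem output_plantM {s κ B s0 L Y Q : ℕ} {Λ : ℝ} (h : 3 * m ≤ n)
    (A : Alg n D W R (PolQ n d a) SignType) (ρ : Fin R → Bool)
    (F : Fin K → MvPolynomial (Fin n × Fin n) ℝ) (F' : Fin K' → MvPolynomial (Fin n × Fin n) ℝ)
    (hF : ∀ t < D, ∀ v f hf, A.ask (flagOf h) ρ t v = .sign f hf →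
      SparseForm s κ B f ∨ ∃ i, F i = f)
    (hF' : ∀ t < D, ∀ v f hf, A.ask (flagOf h) ρ t v = .sign f hf → ∃ i, F' i = f)
    {i j : Fin m} {ω : Om (E m) k b U} {lam : BgM m k U M N}
    (hz : (ω, lam) ∉ BadM A h F F' s κ s0 L Y Q Λ ρ (i, j))
    (hLB : B + s * κ * (2 * N + 1) + 1 ≤ L) (hL : 2 * N + 2 ≤ L) (hY : M ≤ Y)
    (hYs : s * κ * M ≤ Y) (hQs : s * κ * (L * Y ^ k) + B + 1 ≤ Q)
    (hT : TM (i, j) ω lam.1)
    (hne : A.output (polFam n d a) (ins h (vl L Y Q ω.1 (cmp ω.2 lam))) ρ ≠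
      A.output (polFam n d a) (ins h (plv L Y Q ω.1 (cmp ω.2 lam) (0, i, j)
        (1, j, mte (i, j) ω lam.1))) ρ) :
    (0, i, j) ∈ (procM A h s κ B s0 L Y Q Λ lam ρ).rev ω 0 (A.init (flagOf h) ρ) D k := by
  classical
  have hok : SpOK s (s * κ) lam := by
    by_contra hno
    exact hz (mem_filter.2 ⟨mem_univ _, Or.inr (Or.inl hno)⟩)
  exact output_plantM_of h A ρ F F' hF hF' hz
    (fun f hf => good_sparse hLB hL hY hYs hQs h hf ω lam hok _ _) hT hne

end Pool.Agent.Helper21.MX
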